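import Pool.Agent.Helper26.WR.Stmts

set_option autoImplicit false

/-! # The conductors of extensions of a finite extension of `k((t))` -/

namespace Pool.Agent.Helper26.WR

open Pool.Agent.Helper21.DN

universe u

theorem csf_S1 {G H : Type u} [Group G] [Fintype G] [Group H] [Fintype H] (e : G ≃* H)
    (f : G → ℕ) (g : H → ℕ) (h : ∀ x, f x = g (e x)) : S1 f = S1 g := by
  classical
  unfold S1
  refine Finset.sum_bij (fun x _ => e x) ?_ ?_ ?_ ?_
  · intro x hx
    rw [Finset.mem_filter] at hx ⊢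
    refine ⟨Finset.mem_univ _, fun h1 => hx.2 ?_⟩
    exact (MulEquiv.map_eq_one_iff e).1 h1
  · intro x _ y _ hxy
    exact e.injective hxy
  · intro y hy
    rw [Finset.mem_filter] at hy
    refine ⟨e.symm y, ?_, e.apply_symm_apply y⟩
    rw [Finset.mem_filter]
    refine ⟨Finset.mem_univ _, fun h1 => hy.2 ?_⟩
    exact (MulEquiv.map_eq_one_iff e.symm).1 h1
  · intro x _
    exact h x

theorem csf_x0_le {G H : Type u} [Group G] [Fintype G] [Group H] [Fintype H] (e : G ≃* H)
    (f : G → ℕ) (g : H → ℕ) (h : ∀ x, f x = g (e x)) : x0 f ≤ x0 g := by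
  classical
  unfold x0
  refine Finset.sup_le ?_
  intro x hx
  rw [Finset.mem_filter] at hx
  rw [h x]
  refine Finset.le_sup (f := g) ?_
  rw [Finset.mem_filter]
  refine ⟨Finset.mem_univ _, fun h1 => hx.2 ?_⟩
  exact (MulEquiv.map_eq_one_iff e).1 h1

theorem csf_cond {G H : Type u} [Group G] [Fintype G] [Group H] [Fintype H] (e : G ≃* H)
    (f : G → ℕ) (g : H → ℕ) (h : ∀ x, f x = g (e x)) : Pool.Agent.Helper21.DN.cond f = Pool.Agent.Helper21.DN.cond g := by
  have h1 : S1 f = S1 g := csf_S1 e f g h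
  have h2 : x0 f = x0 g := by
    refine le_antisymm (csf_x0_le e f g h) (csf_x0_le e.symm g f ?_)
    intro x
    rw [h, e.apply_symm_apply]
  have h3 : Fintype.card G = Fintype.card H := Fintype.card_congr e.toEquiv
  unfold Pool.Agent.Helper21.DN.cond
  rw [h1, h2, h3]

theorem csf_cancel (n : ℕ) (hn : n ≠ 0) (a b : WithTop ℤ) (h : n • a = n • b) : a = b := by
  have htop : n • (⊤ : WithTop ℤ) = ⊤ := by
    obtain ⟨m, rfl⟩ := Nat.exists_eq_succ_of_ne_zero hn
    rw [succ_nsmul, add_top]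
  induction a using WithTop.recTopCoe with
  | top =>
    induction b using WithTop.recTopCoe with
    | top => rfl
    | coe b =>
      rw [htop, ← WithTop.coe_nsmul] at h
      exact absurd h.symm (WithTop.coe_ne_top)
  | coe a =>
    induction b using WithTop.recTopCoe with
    | top =>
      rw [htop, ← WithTop.coe_nsmul] at h
      exact absurd h (WithTop.coe_ne_top)
    | coe b =>
      rw [← WithTop.coe_nsmul, ← WithTop.coe_nsmul] at h
      have h' : n • a = n • b := WithTop.coe_injective h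
      rw [nsmul_eq_mul, nsmul_eq_mul] at h'
      have hn' : (n : ℤ) ≠ 0 := by exact_mod_cast hn
      rw [mul_left_cancel₀ hn' h']

/-- the two groups of automorphisms -/
noncomputable def csf_equiv {K F M : Type u} [Field K] [Field F] [Field M] [Algebra F M]
    [Algebra K M] (i : K →+* F) (hi : Function.Surjective i)
    (hc : ∀ x, algebraMap K M x = algebraMap F M (i x)) : (M ≃ₐ[F] M) ≃* (M ≃ₐ[K] M) where
  toFun σ := AlgEquiv.ofRingEquiv (f := σ.toRingEquiv) (fun x => by
    rw [hc]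
    exact σ.commutes (i x))
  invFun σ := AlgEquiv.ofRingEquiv (f := σ.toRingEquiv) (fun x => by
    obtain ⟨y, rfl⟩ := hi x
    rw [← hc]
    exact σ.commutes y)
  left_inv σ := by
    ext x
    rfl
  right_inv σ := by
    ext x
    rfl
  map_mul' σ τ := by
    ext x
    rfl

theorem csf_equiv_apply {K F M : Type u} [Field K] [Field F] [Field M] [Algebra F M]
    [Algebra K M] (i : K →+* F) (hi : Function.Surjective i)
    (hc : ∀ x, algebraMap K M x = algebraMap F M (i x)) (σ : M ≃ₐ[F] M) :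
    (⇑(csf_equiv i hi hc σ) : M → M) = ⇑σ := rfl

theorem csf_aux1 (h3 : ST_UNQ.{u}) (hRAM : ST_RAM.{u}) (hCOND : ST_COND.{u})
    (p : ℕ) [Fact p.Prime] (k : Type u) [Field k] [CharP k p] [IsAlgClosed k]
    (F M : Type u) [Field F] [Field M] [Algebra F M] [FiniteDimensional F M] [IsGalois F M]
    [Algebra (LaurentSeries k) M]
    (i : LaurentSeries k →+* F) (hi : Function.Bijective i)
    (hc : ∀ x, algebraMap (LaurentSeries k) M x = algebraMap F M (i x))
    (v : AddValuation M (WithTop ℤ))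
    (hv : ∀ x, v (algebraMap F M (i x)) = Module.finrank F M • x.orderTop)
    (hp : IsPGroup p (M ≃ₐ[F] M)) (hn : Nontrivial (M ≃ₐ[F] M)) (B : Type) [Group B]
    (hB : Nonempty ((M ≃ₐ[F] M) ≃* B)) :
    Pool.Agent.Helper21.DN.cond (fun σ : M ≃ₐ[F] M => s v σ) ∈ condSet k B := by
  have hcomp : (algebraMap (LaurentSeries k) M).comp
      ((RingEquiv.ofBijective i hi).symm : F →+* LaurentSeries k) =
      ((RingEquiv.refl M : M ≃+* M) : M →+* M).comp (algebraMap F M) := by
    ext x
    obtain ⟨y, rfl⟩ := hi.2 x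
    have h1 : (RingEquiv.ofBijective i hi).symm (i y) = y :=
      (RingEquiv.ofBijective i hi).symm_apply_apply y
    show algebraMap (LaurentSeries k) M ((RingEquiv.ofBijective i hi).symm (i y)) =
      algebraMap F M (i y)
    rw [h1, hc]
  have hfin : FiniteDimensional (LaurentSeries k) M :=
    Module.Finite.of_equiv_equiv (RingEquiv.ofBijective i hi).symm (RingEquiv.refl M) hcomp
  have hgal : IsGalois (LaurentSeries k) M := IsGalois.of_equiv_equiv hcomp
  have hrank : Module.finrank F M = Module.finrank (LaurentSeries k) M :=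
    Algebra.finrank_eq_of_equiv_equiv (RingEquiv.ofBijective i hi).symm (RingEquiv.refl M) hcomp
  have hpos : 0 < Module.finrank F M := Module.finrank_pos
  have hval : ∀ x : M, v x = val k M x := by
    intro x
    have h := h3 k M v (Module.finrank F M) hpos (fun x => by rw [hc, hv]) x
    rw [← hrank] at h
    exact csf_cancel _ hpos.ne' _ _ h
  obtain ⟨v', hv', hram'⟩ := hRAM k M
  have hvv : v' = v := by
    ext x
    rw [hv', hval]
  rw [hvv] at hram'
  have hcoe : ∀ σ : M ≃ₐ[F] M, (⇑(csf_equiv i hi.2 hc σ) : M → M) = ⇑σ :=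
    csf_equiv_apply i hi.2 hc
  have hp' : IsPGroup p (M ≃ₐ[LaurentSeries k] M) := hp.of_equiv (csf_equiv i hi.2 hc)
  have hn' : Nontrivial (M ≃ₐ[LaurentSeries k] M) :=
    (csf_equiv i hi.2 hc).toEquiv.nontrivial_congr.1 hn
  have hcd := hCOND p k M v hval hram' hp' hn'
  have heq : Pool.Agent.Helper21.DN.cond (fun σ : M ≃ₐ[F] M => s v σ) =
      Pool.Agent.Helper21.DN.cond (fun σ : M ≃ₐ[LaurentSeries k] M => s v σ) := by
    refine csf_cond (csf_equiv i hi.2 hc) _ _ ?_
    intro x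
    show s v x = s v (csf_equiv i hi.2 hc x)
    rw [hcoe]
  obtain ⟨eB⟩ := hB
  refine ⟨M, inferInstance, inferInstance, hfin, hgal,
    ⟨(csf_equiv i hi.2 hc).symm.trans eB⟩, ?_⟩
  rw [heq, hcd]

/-- the auxiliary lemma, without a structure of `k((t))`-algebra on `M` -/
theorem csf_aux (h3 : ST_UNQ.{u}) (hRAM : ST_RAM.{u}) (hCOND : ST_COND.{u})
    (p : ℕ) [Fact p.Prime] (k : Type u) [Field k] [CharP k p] [IsAlgClosed k]
    (F M : Type u) [Field F] [Field M] [Algebra F M] [FiniteDimensional F M] [IsGalois F M]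
    (i : LaurentSeries k →+* F) (hi : Function.Bijective i)
    (v : AddValuation M (WithTop ℤ))
    (hv : ∀ x, v (algebraMap F M (i x)) = Module.finrank F M • x.orderTop)
    (hp : IsPGroup p (M ≃ₐ[F] M)) (hn : Nontrivial (M ≃ₐ[F] M)) (B : Type) [Group B]
    (hB : Nonempty ((M ≃ₐ[F] M) ≃* B)) :
    Pool.Agent.Helper21.DN.cond (fun σ : M ≃ₐ[F] M => s v σ) ∈ condSet k B := by
  let A1 : Algebra (LaurentSeries k) M := ((algebraMap F M).comp i).toAlgebra
  exact csf_aux1 h3 hRAM hCOND p k F M i hi (fun _ => rfl) v hv hp hn B hB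

theorem st_CSF (h1 : ST_EVA.{u}) (h2 : ST_SUR1.{u}) (h3 : ST_UNQ.{u}) (hVAL : ST_VAL.{u})
    (hTOW : ST_TOW.{u}) (hRAM : ST_RAM.{u}) (hCOND : ST_COND.{u}) : ST_CSF.{u} := by
  intro p _ k _ _ _ F M _ _ _ _ _ _ _ _ _ _ _ _ v hv hp hn B _ hB
  obtain ⟨vF, hvF, hTV⟩ := hVAL k F
  obtain ⟨y, hy⟩ := hTV.unif
  obtain ⟨i, hi0, _, hiv⟩ := h1 k F vF hvF y 1 le_rfl (by rw [hy]; rfl)
  have hiv' : ∀ x, vF (i x) = x.orderTop := by
    intro x
    rw [hiv, one_smul]
  have hsurj : Function.Surjective i := h2 k F ((algebraMap (LaurentSeries k) F).comp (κ0 k))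
    vF hTV i hi0 hiv'
  refine csf_aux h3 hRAM hCOND p k F M i ⟨i.injective, hsurj⟩ v ?_ hp hn B hB
  intro x
  rw [hv, hTOW k F M, ← hvF, hiv']

end Pool.Agent.Helper26.WR
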